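import Pool.Agent.P8H50.NK.Stm2

/-!
# Project NK, packages RESF and AFI
-/

set_option autoImplicit false

open FF Pool.Agent.W603.LV Pool.Agent.W603.PV

namespace Pool.Agent.P8H16.NK

open Pool.Agent.P8H50.NK

theorem resf : S_RESF := by
  intro k _ n p q M A B hBA S hS
  obtain ⟨T, hT⟩ : ∃ T : (Fin n → k) →ₗ[k] (Fin p → k), ∀ v l, T v l = ∑ i, v i * A i l :=
    ⟨{ toFun := fun v l => ∑ i, v i * A i l
       map_add' := fun v w => by
        funext l
        simp [add_mul, Finset.sum_add_distrib]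
       map_smul' := fun c v => by
        funext l
        simp [Finset.mul_sum, mul_assoc] }, fun _ _ => rfl⟩
  have hsurj : Function.Surjective T := by
    intro w
    refine ⟨fun i => ∑ l, w l * B l i, ?_⟩
    funext l'
    rw [hT]
    have h1 : ∑ i, (∑ l, w l * B l i) * A i l' = ∑ l, w l * ∑ i, B l i * A i l' := by
      simp only [Finset.sum_mul, Finset.mul_sum]
      rw [Finset.sum_comm]
      exact Finset.sum_congr rfl fun _ _ => Finset.sum_congr rfl fun _ _ => by ring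
    rw [h1]
    simp [hBA]
  have h1 : (fun j l => ∑ i, M j i * A i l) = fun j => T (M j) := by
    funext j l
    rw [hT]
  unfold Pool.Agent.N750.rk at hS ⊢
  rw [h1]
  have h2 : Submodule.span k (M '' (S : Set (Fin q))) = ⊤ := by
    apply Submodule.eq_top_of_finrank_eq
    rw [hS, Module.finrank_fin_fun]
  have h3 : (fun j => T (M j)) '' (S : Set (Fin q)) = T '' (M '' (S : Set (Fin q))) := by
    rw [Set.image_image]
  rw [h3, Submodule.span_image, h2, Submodule.map_top, LinearMap.range_eq_top.2 hsurj, finrank_top,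
    Module.finrank_fin_fun]

lemma lk_restrict {k K : Type} [Field k] [Field K] [Algebra k K] {n p : ℕ} (b : Fin n → k)
    (A : Fin n → Fin p → k) (x : Fin n → K) (f : Fin p → K)
    (h : ∀ i, x i = ∑ l, algebraMap k K (A i l) * f l) :
    lk (fun l => ∑ i, b i * A i l) f = lk b x := by
  unfold lk
  simp only [map_sum, map_mul, h, Finset.mul_sum, Finset.sum_mul]
  rw [Finset.sum_comm]
  exact Finset.sum_congr rfl fun _ _ => Finset.sum_congr rfl fun _ _ => by ring

theorem pord_fin {k K : Type} [Field k] [Field K] [Algebra k K] [CharZero k] [IsFF k K] {n : ℕ}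
    {f : Fin (n + 1) → K} (hf : ∃ j, f j ≠ 0) :
    (Function.support fun P : Place k K => pord P f).Finite := by
  classical
  obtain ⟨T, hT⟩ := exists_supp (k := k) Finset.univ f
  refine (Finset.finite_toSet T).subset ?_
  intro P hP
  by_contra hcon
  apply hP
  obtain ⟨j, _, hj⟩ := exists_pord P hf
  simp only
  rw [← hj]
  by_contra h
  exact hcon (hT j (Finset.mem_univ _) P h)

lemma pht_nonneg {k K : Type} [Field k] [Field K] [Algebra k K] [CharZero k] [IsFF k K]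
    [IsAlgClosed k] {n : ℕ} (f : Fin (n + 1) → K) (hf : ∃ j, f j ≠ 0) : 0 ≤ pht k f := by
  obtain ⟨j, hj⟩ := hf
  unfold pht
  have h1 : 0 ≤ ∑ᶠ P : Place k K, (P.ord (f j) - pord P f) :=
    finsum_nonneg fun P => sub_nonneg.2 (pord_le P hj)
  rw [finsum_sub_distrib (finite_support (f j)) (pord_fin ⟨j, hj⟩), sum_ord] at h1
  linarith

/-- elementary estimates for the numbers -/
lemma delta_pos (p t q : ℕ) (hp : 1 ≤ p) (hpt : p ≤ t) (hq : 2 * t < q) :
    1 / ((t : ℝ) + 1) ≤ (((p + 1 : ℕ) : ℝ) * (q - (2 * t - ((p + 1 : ℕ) : ℝ) + 2))) /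
      (2 * t - ((p + 1 : ℕ) : ℝ) + 2) := by
  push_cast
  have h1 : (1 : ℝ) ≤ p := by exact_mod_cast hp
  have h2 : (p : ℝ) ≤ t := by exact_mod_cast hpt
  have h3 : 2 * (t : ℝ) + 1 ≤ q := by exact_mod_cast hq
  have h4 : 0 < 2 * (t : ℝ) - (p + 1) + 2 := by linarith
  rw [div_le_div_iff₀ (by linarith) h4]
  have h5 : (1 : ℝ) ≤ q - (2 * t - (p + 1) + 2) := by linarith
  have h6 : 2 * (t + 1 : ℝ) ≤ ((p : ℝ) + 1) * (q - (2 * t - (p + 1) + 2)) * (t + 1) := by
    have h7 : (2 : ℝ) ≤ ((p : ℝ) + 1) * (q - (2 * t - (p + 1) + 2)) := by nlinarith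
    exact mul_le_mul_of_nonneg_right h7 (by linarith)
  linarith

lemma rho_le (p t q E : ℕ) (ρ : ℝ) (hp : 1 ≤ p) (hpt : p ≤ t) (hq : 2 * t < q)
    (h : (((p + 1 : ℕ) : ℝ) - 1) * (2 * t - ((p + 1 : ℕ) : ℝ) + 2) * E ≤
      2 * ρ * (q - (2 * t - ((p + 1 : ℕ) : ℝ) + 2))) :
    (E : ℝ) / ((((p + 1 : ℕ) : ℝ) * (q - (2 * t - ((p + 1 : ℕ) : ℝ) + 2))) /
      (2 * t - ((p + 1 : ℕ) : ℝ) + 2)) * (((p : ℝ) + 1) * p / 2) ≤ ρ := by
  push_cast at h ⊢
  have h1 : (1 : ℝ) ≤ p := by exact_mod_cast hp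
  have h2 : (p : ℝ) ≤ t := by exact_mod_cast hpt
  have h3 : 2 * (t : ℝ) + 1 ≤ q := by exact_mod_cast hq
  have h4 : 0 < 2 * (t : ℝ) - (p + 1) + 2 := by linarith
  have h5 : (0 : ℝ) < q - (2 * t - (p + 1) + 2) := by linarith
  have h6 : (E : ℝ) / ((((p : ℝ) + 1) * (q - (2 * t - (p + 1) + 2))) /
      (2 * t - (p + 1) + 2)) * (((p : ℝ) + 1) * p / 2) =
      (((p : ℝ) + 1 - 1) * (2 * t - (p + 1) + 2) * E) / (2 * (q - (2 * t - (p + 1) + 2))) := by
    have h7 : (p : ℝ) + 1 ≠ 0 := by positivity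
    field_simp
    ring
  rw [h6, div_le_iff₀ (by positivity)]
  linarith

theorem afi (hACO : S_ACO) (hASP : S_ASP) (hWTSF : S_WTSF) (hRESF : S_RESF) : S_AFI := by
  classical
  intro s n q t e m ρ hnt he hρ hρm
  -- the constants
  obtain ⟨Sn, hSn⟩ : ∃ Sn : ℝ, Sn = ∑ i, ((n i : ℝ) + 1) * n i / 2 := ⟨_, rfl⟩
  have hSn0 : 0 ≤ Sn := by
    rw [hSn]
    exact Finset.sum_nonneg fun i _ => by positivity
  obtain ⟨η, hη⟩ : ∃ η : ℝ, η = (m - ∑ i, ρ i) / (1 + Sn) := ⟨_, rfl⟩
  have hη0 : 0 < η := by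
    rw [hη]
    exact div_pos (by linarith) (by linarith)
  have hηm : ∑ i, ρ i + η * Sn ≤ m := by
    have h1 : η * (1 + Sn) = m - ∑ i, ρ i := by
      rw [hη]
      field_simp
    nlinarith
  obtain ⟨St, hSt⟩ : ∃ St : ℝ, St = ∑ i, (t i : ℝ) := ⟨_, rfl⟩
  have hSt0 : 0 ≤ St := by
    rw [hSt]
    exact Finset.sum_nonneg fun i _ => by positivity
  obtain ⟨δ0, hδ0⟩ : ∃ δ0 : ℝ, δ0 = 1 / (St + 1) := ⟨_, rfl⟩
  have hδpos : 0 < δ0 := by
    rw [hδ0]
    positivity
  refine ⟨m / (η * δ0) + 1, by positivity, ?_⟩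
  intro k K _ _ _ _ _ _ ℓ x hspan hx0 hlx hmult
  choose p f A B hli hpn hxf hBA hpord hpht hp0 using fun i => hASP k K (n i) (x i) (hx0 i)
  -- the restricted forms
  obtain ⟨M, hM⟩ : ∃ M : ∀ i, Fin (q i) → Fin (p i + 1) → k,
      ∀ i j, M i j = fun l => ∑ i', ℓ i j i' * A i i' l := ⟨_, fun _ _ => rfl⟩
  have hlk : ∀ i j, lk (M i j) (f i) = lk (ℓ i j) (x i) := by
    intro i j
    rw [hM]
    exact lk_restrict _ _ _ _ (hxf i)
  have hM0 : ∀ i j, M i j ≠ 0 := by
    intro i j h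
    apply hlx i j
    rw [← hlk, h]
    unfold lk
    simp
  have hpt : ∀ i, p i ≤ t i := fun i => (hpn i).trans (hnt i).1
  have hW := fun i => hWTSF k (p i + 1) (q i) (t i) (M i) (by omega)
    (by have := hpt i; omega) (hnt i).2 (fun S hS => by
      have h1 := hRESF k (n i + 1) (p i + 1) (q i) (ℓ i) (A i) (B i) (hBA i) S (hspan i S hS)
      have h2 : M i = fun j l => ∑ i', ℓ i j i' * A i i' l := by
        funext j
        rw [hM]
      rw [h2]
      exact h1)
  choose ω hω hωs using hW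
  obtain ⟨E, hE⟩ : ∃ E : Fin s → ℕ, ∀ i, E i = ∑ j, e i j := ⟨_, fun _ => rfl⟩
  have hER : ∀ i, ∑ j, (e i j : ℝ) = E i := by
    intro i
    rw [hE]
    push_cast
    rfl
  obtain ⟨δ, hδ⟩ : ∃ δ : Fin s → ℝ, ∀ i, δ i =
      (((p i + 1 : ℕ) : ℝ) * (q i - (2 * t i - ((p i + 1 : ℕ) : ℝ) + 2))) /
        (2 * t i - ((p i + 1 : ℕ) : ℝ) + 2) := ⟨_, fun _ => rfl⟩
  have hδge : ∀ i, 1 ≤ p i → δ0 ≤ δ i := by
    intro i hi
    rw [hδ i]
    refine le_trans ?_ (delta_pos (p i) (t i) (q i) hi (hpt i) (hnt i).2)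
    rw [hδ0]
    refine one_div_le_one_div_of_le (by positivity) ?_
    have : (t i : ℝ) ≤ St := by
      rw [hSt]
      exact Finset.single_le_sum (f := fun i => (t i : ℝ)) (fun _ _ => by positivity)
        (Finset.mem_univ i)
    linarith
  obtain ⟨c, hc⟩ : ∃ c : Fin s → ℝ, ∀ i, c i = if 1 ≤ p i then E i / δ i + η else 0 :=
    ⟨_, fun _ => rfl⟩
  have hc0 : ∀ i, 0 ≤ c i := by
    intro i
    rw [hc]
    split_ifs with h
    · have := hδpos.trans_le (hδge i h)
      positivity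
    · exact le_rfl
  have hphtf : ∀ i, 0 ≤ pht k (x i) := by
    intro i
    refine pht_nonneg _ ?_
    by_contra hcon
    push Not at hcon
    exact hx0 i (funext hcon)
  -- the coefficient of the canonical degree
  obtain ⟨κ, hκ⟩ : ∃ κ : ℝ, κ = ∑ i, c i * (((p i : ℝ) + 1) * p i / 2) := ⟨_, rfl⟩
  have hκm : κ ≤ m := by
    refine le_trans ?_ hηm
    rw [hκ, hSn, Finset.mul_sum, ← Finset.sum_add_distrib]
    refine Finset.sum_le_sum fun i _ => ?_
    rw [hc]
    split_ifs with h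
    · rw [add_mul]
      refine add_le_add ?_ ?_
      · rw [hδ]
        refine rho_le (p i) (t i) (q i) (E i) (ρ i) h (hpt i) (hnt i).2 ?_
        have h1 := (hρ i).2 (p i + 1) (by omega) (by have := hpn i; omega)
        rw [hER] at h1
        exact h1
      · refine mul_le_mul_of_nonneg_left ?_ hη0.le
        have h1 : (p i : ℝ) ≤ n i := by exact_mod_cast hpn i
        have h2 : ((p i : ℝ) + 1) * p i ≤ ((n i : ℝ) + 1) * n i :=
          mul_le_mul (by linarith) h1 (by positivity) (by positivity)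
        linarith
    · rw [zero_mul]
      have := (hρ i).1
      positivity
  have hmain := hACO k K s p q M ω e m c f hω hli hM0 hc0 he (by rw [← hκ]; exact hκm) (by
    intro P
    have h1 := hmult P
    simp only [hlk, hpord]
    exact h1)
  rw [← hκ] at hmain
  -- the left side
  have hleft : η * δ0 * ∑ i, (pht k (x i) : ℝ) ≤
      ∑ i, (c i * (∑ j, ω i j - (p i + 1)) - ∑ j, (e i j : ℝ)) * (pht k (f i) : ℝ) := by
    rw [Finset.mul_sum]
    refine Finset.sum_le_sum fun i _ => ?_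
    rw [hpht i]
    by_cases h : 1 ≤ p i
    · refine mul_le_mul_of_nonneg_right ?_ (by exact_mod_cast hphtf i)
      have h1 := hδge i h
      have h2 : 0 < δ i := hδpos.trans_le h1
      have h3 : δ i ≤ ∑ j, ω i j - (p i + 1) := by
        have := hωs i
        rw [← hδ i] at this
        push_cast at this
        exact this
      have h4 := mul_le_mul_of_nonneg_left h3 (hc0 i)
      have h5 : c i * δ i = E i + η * δ i := by
        rw [hc, if_pos h]
        field_simp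
      have h6 := mul_le_mul_of_nonneg_left h1 hη0.le
      rw [hER]
      linarith
    · have h1 : pht k (x i) = 0 := (hp0 i (by omega)).1
      rw [h1]
      simp
  by_cases hJ : ∀ i, p i = 0
  · exact Or.inr fun i => (hp0 i (hJ i)).2
  · left
    push Not at hJ
    obtain ⟨i₀, hi₀⟩ := hJ
    have hκ0 : 0 < κ := by
      rw [hκ]
      refine Finset.sum_pos' (fun i _ => mul_nonneg (hc0 i) (by positivity))
        ⟨i₀, Finset.mem_univ _, ?_⟩
      have h1 : 1 ≤ p i₀ := Nat.one_le_iff_ne_zero.2 hi₀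
      have h2 : (0 : ℝ) < p i₀ := by exact_mod_cast h1
      refine mul_pos ?_ (by positivity)
      rw [hc, if_pos h1]
      have := hδpos.trans_le (hδge i₀ h1)
      positivity
    have hS0 : (0 : ℝ) ≤ ∑ i, (pht k (x i) : ℝ) :=
      Finset.sum_nonneg fun i _ => by exact_mod_cast hphtf i
    have h1 : η * δ0 * ∑ i, (pht k (x i) : ℝ) ≤ κ * (canDeg k K : ℝ) := hleft.trans hmain
    have hcan : (0 : ℝ) ≤ canDeg k K := by
      by_contra hneg
      push Not at hneg
      have h2 : κ * (canDeg k K : ℝ) < 0 := mul_neg_of_pos_of_neg hκ0 hneg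
      have h3 : 0 ≤ η * δ0 * ∑ i, (pht k (x i) : ℝ) := by positivity
      linarith
    have h2 : κ * (canDeg k K : ℝ) ≤ m * (canDeg k K : ℝ) := mul_le_mul_of_nonneg_right hκm hcan
    have h3 : ∑ i, (pht k (x i) : ℝ) ≤ m / (η * δ0) * (canDeg k K : ℝ) := by
      rw [div_mul_eq_mul_div, le_div_iff₀ (by positivity)]
      linarith
    linarith

end Pool.Agent.P8H16.NK
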